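import Pool.Agent.Helper9.LS5.SheetN

/-! Row BCH of project LS5 (MP_9a3c31_nt): finite places of an extension. -/

set_option autoImplicit false

namespace Pool.Agent.Helper97.LS5

open Pool.Agent.Helper9.LS5 NumberField IsDedekindDomain WithZeroMulInt

open scoped NNReal WithZero

theorem toNN_pow {e : ℝ≥0} (he : e ≠ 0) (n : ℕ) (hn : n ≠ 0) (he' : e ^ n ≠ 0) (z : ℤᵐ⁰) :
    toNNReal he' z = toNNReal he z ^ n := by
  by_cases hz : z = 0
  · rw [hz, map_zero, map_zero, zero_pow hn]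
  · rw [toNNReal_neg_apply he' hz, toNNReal_neg_apply he hz, ← zpow_natCast, ← zpow_natCast,
      ← zpow_mul, ← zpow_mul, mul_comm]

theorem toNN_congr {e e' : ℝ≥0} (h : e = e') (he : e ≠ 0) (he' : e' ≠ 0) (z : ℤᵐ⁰) :
    toNNReal he z = toNNReal he' z := by
  subst h
  rfl

theorem BCH : ST_BCH := by
  intro K M _ _ _ _ f v
  let _ : Algebra K M := f.toAlgebra
  set p := v.maximalIdeal with hp
  obtain ⟨Q, hQm, hQ⟩ := Ideal.exists_maximal_ideal_liesOver_of_isIntegral (S := 𝓞 M) p.asIdeal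
  have hQ0 : Q ≠ ⊥ := Ideal.ne_bot_of_liesOver_of_ne_bot p.ne_bot Q
  let w : HeightOneSpectrum (𝓞 M) := ⟨Q, hQm.isPrime, hQ0⟩
  have hw : w.asIdeal.LiesOver p.asIdeal := hQ
  set i := p.asIdeal.inertiaDeg' w.asIdeal with hi
  set e := p.asIdeal.ramificationIdx' w.asIdeal with he
  have hN : Ideal.absNorm w.asIdeal = Ideal.absNorm p.asIdeal ^ i :=
    Ideal.absNorm_eq_pow_inertiaDeg'_of_liesOver w.asIdeal p.asIdeal p.isPrime p.ne_bot
  have hi0 : i ≠ 0 := by
    intro h0
    rw [h0, pow_zero] at hN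
    exact w.isPrime.ne_top (Ideal.absNorm_eq_one_iff.1 hN)
  have he0 : e ≠ 0 := Ideal.IsDedekindDomain.ramificationIdx'_ne_zero_of_liesOver w.asIdeal p.ne_bot
  refine ⟨FinitePlace.mk w, e * i, Nat.one_le_iff_ne_zero.2 (mul_ne_zero he0 hi0), fun x => ?_⟩
  have h1 : FinitePlace.mk w (f x) =
      toNNReal (NumberField.HeightOneSpectrum.absNorm_ne_zero w) (w.valuation M (f x)) := by
    rw [FinitePlace.mk_apply, FinitePlace.norm_embedding']
  have h2 : v x = toNNReal (NumberField.HeightOneSpectrum.absNorm_ne_zero p)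
      (p.valuation K x) := by
    rw [← FinitePlace.norm_embedding_eq v x, FinitePlace.norm_embedding']
  have h3 : w.valuation M (f x) = p.valuation K x ^ e :=
    (HeightOneSpectrum.valuation_liesOver M p w x).symm
  have hpN := NumberField.HeightOneSpectrum.absNorm_ne_zero p
  have h4 : ((Ideal.absNorm w.asIdeal : ℕ) : ℝ≥0) = ((Ideal.absNorm p.asIdeal : ℕ) : ℝ≥0) ^ i := by
    rw [hN]
    push_cast
    rfl
  rw [h1, h2, h3, toNN_congr h4 _ (pow_ne_zero i hpN), toNN_pow hpN i hi0 (pow_ne_zero i hpN),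
    map_pow]
  push_cast
  rw [← pow_mul]

end Pool.Agent.Helper97.LS5
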