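import Pool.Agent.Helper9.LS5.SheetN

/-! Row FAC of project LS5 (MP_9a3c31_nt): common factorisation of polynomials. -/

set_option autoImplicit false

namespace Pool.Agent.Helper97.LS5

open Pool.Agent.Helper9.LS5 UniqueFactorizationMonoid

theorem FAC : ST_FAC := by
  intro F _ r n p hp
  classical
  let _ : StrongNormalizationMonoid (MvPolynomial (Fin r) F) :=
    UniqueFactorizationMonoid.strongNormalizationMonoid
  set U : Finset (MvPolynomial (Fin r) F) :=
    Finset.univ.biUnion fun i => (normalizedFactors (p i)).toFinset with hU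
  have hmem : ∀ g ∈ U, ∃ i, g ∈ normalizedFactors (p i) := by
    intro g hg
    simp only [hU, Finset.mem_biUnion, Finset.mem_univ, true_and, Multiset.mem_toFinset] at hg
    exact hg
  have hirr : ∀ g ∈ U, Irreducible g := fun g hg => by
    obtain ⟨i, hi⟩ := hmem g hg
    exact irreducible_of_normalized_factor g hi
  have hnor : ∀ g ∈ U, normalize g = g := fun g hg => by
    obtain ⟨i, hi⟩ := hmem g hg
    exact normalize_normalized_factor g hi
  have hprod : ∀ i, ∃ c : F, c ≠ 0 ∧ p i = MvPolynomial.C c *
      ∏ g ∈ U, g ^ (normalizedFactors (p i)).count g := by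
    intro i
    have h1 := prod_normalizedFactors (hp i)
    obtain ⟨u, hu⟩ := h1
    obtain ⟨c, hc⟩ : ∃ c : F, MvPolynomial.C c = (u : MvPolynomial (Fin r) F) := by
      have := u.isUnit
      rw [MvPolynomial.isUnit_iff_eq_C_of_isReduced] at this
      obtain ⟨c, -, hc⟩ := this
      exact ⟨c, hc.symm⟩
    have hsub : (normalizedFactors (p i)).toFinset ⊆ U := by
      rw [hU]
      exact Finset.subset_biUnion_of_mem (fun i => (normalizedFactors (p i)).toFinset)
        (Finset.mem_univ i)
    refine ⟨c, ?_, ?_⟩
    · intro h0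
      rw [h0, map_zero] at hc
      exact u.ne_zero hc.symm
    · rw [← Finset.prod_multiset_count_of_subset _ _ hsub, hc, mul_comm]
      exact hu.symm
  choose c hc0 hc using hprod
  set e := U.equivFin with he
  refine ⟨U.card, fun j => (e.symm j : MvPolynomial (Fin r) F),
    fun i j => (normalizedFactors (p i)).count (e.symm j : MvPolynomial (Fin r) F), c, hc0, ?_, ?_, ?_⟩
  · exact fun j => (hirr _ (e.symm j).2).ne_zero
  · intro j j' hjj
    rw [(hirr _ (e.symm j).2).isRelPrime_iff_not_dvd]
    intro hd
    have h1 := (hirr _ (e.symm j).2).associated_of_dvd (hirr _ (e.symm j').2) hd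
    have h2 := normalize_eq_normalize_iff_associated.2 h1
    rw [hnor _ (e.symm j).2, hnor _ (e.symm j').2] at h2
    exact hjj (e.symm.injective (Subtype.ext h2))
  · intro i
    rw [hc i]
    congr 1
    rw [← Finset.prod_coe_sort U, ← Equiv.prod_comp e.symm]

end Pool.Agent.Helper97.LS5
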